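import Pool.Agent.MP_670f9a_nt.H13.Spec

/-
A point whose iterated squares stay on a curve has dependent coordinates.
-/

namespace Pool.Agent.MP_670f9a_nt.H10

open Polynomial Filter Topology Pool.Agent.MP_670f9a_nt.H13

lemma sq_fix (w : ℕ → ℂ) (hw : ∀ k, w (k + 1) = w k ^ 2) (h : Tendsto w atTop (𝓝 1)) :
    ∃ k, w k = 1 := by
  have h0 : Tendsto (fun k => ‖w k - 1‖) atTop (𝓝 0) := tendsto_iff_norm_sub_tendsto_zero.1 h
  obtain ⟨K, hK⟩ := eventually_atTop.1 (h0.eventually (gt_mem_nhds zero_lt_one))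
  have hm : ∀ k, K ≤ k → ‖w K - 1‖ ≤ ‖w k - 1‖ := by
    intro k hk
    induction k, hk using Nat.le_induction with
    | base => exact le_rfl
    | succ k hk ih =>
      refine ih.trans ?_
      have e : w (k + 1) - 1 = (w k - 1) * (2 + (w k - 1)) := by rw [hw]; ring
      have h1 : (2 : ℝ) - ‖w k - 1‖ ≤ ‖2 + (w k - 1)‖ := by
        have := norm_sub_norm_le (2 : ℂ) (-(w k - 1))
        simpa only [norm_neg, sub_neg_eq_add, Complex.norm_ofNat] using this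
      rw [e, norm_mul]
      have := hK k hk
      nlinarith [norm_nonneg (w k - 1)]
  have : ‖w K - 1‖ ≤ 0 := ge_of_tendsto h0 (eventually_atTop.2 ⟨K, hm⟩)
  exact ⟨K, sub_eq_zero.1 (norm_le_zero_iff.1 this)⟩

lemma root_unity (P : ℂ[X]) (hP : P ≠ 0) (t : ℂ) (ht : ‖t‖ = 1)
    (h : Tendsto (fun k : ℕ => P.eval (t ^ 2 ^ k)) atTop (𝓝 0)) : ∃ E : ℕ, 0 < E ∧ t ^ E = 1 := by
  classical
  set x : ℕ → ℂ := fun k => t ^ 2 ^ k with hx
  have hx2 : ∀ k, x (k + 1) = x k ^ 2 := fun k => by simp only [hx, pow_succ 2 k, pow_mul]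
  have hxn : ∀ k, ‖x k‖ = 1 := fun k => by simp only [hx, norm_pow, ht, one_pow]
  let Cl : Set ℂ := {y | ∃ U : Ultrafilter ℕ, (U : Filter ℕ) ≤ atTop ∧ Tendsto x U (𝓝 y)}
  have hroot : ∀ y ∈ Cl, P.eval y = 0 := by
    rintro y ⟨U, hU, hy⟩
    exact tendsto_nhds_unique ((P.continuous.tendsto y).comp hy) (h.mono_left hU)
  have hnorm : ∀ y ∈ Cl, ‖y‖ = 1 := by
    rintro y ⟨U, -, hy⟩
    have h1 : Tendsto (fun k => ‖x k‖) U (𝓝 ‖y‖) := hy.norm
    simp only [hxn] at h1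
    exact tendsto_nhds_unique h1 tendsto_const_nhds
  have hsq : ∀ y ∈ Cl, y ^ 2 ∈ Cl := by
    rintro y ⟨U, hU, hy⟩
    refine ⟨U.map (· + 1), ?_, ?_⟩
    · exact (tendsto_add_atTop_nat 1).mono_left hU
    · have : Tendsto (fun k => x (k + 1)) U (𝓝 (y ^ 2)) := by
        simp only [hx2]
        exact hy.pow 2
      exact this
  have hfin : Cl.Finite := (P.finite_setOfPred_isRoot hP).subset hroot
  have hord : ∀ y ∈ Cl, ∃ n : ℕ, 0 < n ∧ y ^ n = 1 := by
    intro y hy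
    have hit : ∀ k : ℕ, y ^ 2 ^ k ∈ Cl := by
      intro k
      induction k with
      | zero => simpa using hy
      | succ k ih => simpa only [pow_succ 2 k, pow_mul] using hsq _ ih
    obtain ⟨i, j, hij, e⟩ := hfin.exists_lt_map_eq_of_forall_mem hit
    have hlt : 2 ^ i < 2 ^ j := Nat.pow_lt_pow_right one_lt_two hij
    have hy0 : y ≠ 0 := by
      rintro rfl
      simpa using hnorm _ hy
    refine ⟨2 ^ j - 2 ^ i, Nat.sub_pos_of_lt hlt, ?_⟩
    refine mul_left_cancel₀ (pow_ne_zero (2 ^ i) hy0) ?_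
    rw [← pow_add, Nat.add_sub_cancel' hlt.le, mul_one]
    exact e.symm
  choose! n hn0 hn1 using hord
  set E := ∏ y ∈ hfin.toFinset, n y with hE
  have hE0 : 0 < E := Finset.prod_pos fun y hy => hn0 y (hfin.mem_toFinset.1 hy)
  have hE1 : ∀ y ∈ Cl, y ^ E = 1 := fun y hy => by
    obtain ⟨m, hm⟩ : n y ∣ E := Finset.dvd_prod_of_mem n (hfin.mem_toFinset.2 hy)
    rw [hm, pow_mul, hn1 y hy, one_pow]
  have hw : Tendsto (fun k => x k ^ E) atTop (𝓝 1) := by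
    refine (tendsto_iff_ultrafilter _ _ _).2 fun U hU => ?_
    obtain ⟨y, -, hy⟩ := (isCompact_sphere (0 : ℂ) 1).ultrafilter_le_nhds (U.map x)
      (le_principal_iff.2 (mem_map.2 (Eventually.of_forall fun k => by simp [hxn])))
    have hy' : Tendsto x U (𝓝 y) := hy
    rw [← hE1 y ⟨U, hU, hy'⟩]
    exact hy'.pow E
  obtain ⟨k, hk⟩ := sq_fix (fun k => x k ^ E) (fun k => by rw [hx2]; exact pow_right_comm _ _ _) hw
  exact ⟨2 ^ k * E, Nat.mul_pos (Nat.two_pow_pos k) hE0, by rw [pow_mul]; exact hk⟩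

lemma dep_sum {σ : Type} (S : Finset σ) (c : σ → ℂ) (i j : σ → ℕ) (hS : S.Nonempty)
    (hc : ∀ s ∈ S, c s ≠ 0) (hinj : ∀ s t, i s = i t → j s = j t → s = t) (a z : ℂ)
    (ha : 1 < ‖a‖) (hz : z ≠ 0)
    (h : ∀ k : ℕ, ∑ s ∈ S, c s * (a ^ i s * z ^ j s) ^ 2 ^ k = 0) :
    ∃ u v : ℤ, (u ≠ 0 ∨ v ≠ 0) ∧ a ^ u * z ^ v = 1 := by
  classical
  have ha0 : a ≠ 0 := by
    rintro rfl
    norm_num at ha
  set μ : σ → ℂ := fun s => a ^ i s * z ^ j s with hμ
  have hμ0 : ∀ s, μ s ≠ 0 := fun s => mul_ne_zero (pow_ne_zero _ ha0) (pow_ne_zero _ hz)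
  obtain ⟨s0, hs0, hmax⟩ := S.exists_max_image (fun s => ‖μ s‖) hS
  set ν : σ → ℂ := fun s => μ s / μ s0 with hν
  set T := S.filter fun s => ‖ν s‖ = 1 with hT
  have hν0 : ν s0 = 1 := div_self (hμ0 s0)
  have hT0 : s0 ∈ T := Finset.mem_filter.2 ⟨hs0, by rw [hν0, norm_one]⟩
  have hlim : Tendsto (fun k : ℕ => ∑ s ∈ T, c s * ν s ^ 2 ^ k) atTop (𝓝 0) := by
    have e : ∀ k : ℕ, ∑ s ∈ T, c s * ν s ^ 2 ^ k =
        -∑ s ∈ S.filter fun s => ¬ ‖ν s‖ = 1, c s * ν s ^ 2 ^ k := by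
      intro k
      rw [eq_neg_iff_add_eq_zero, Finset.sum_filter_add_sum_filter_not]
      simp only [hν, div_pow, ← mul_div_assoc, ← Finset.sum_div]
      rw [h k, zero_div]
    simp only [e]
    rw [← neg_zero]
    refine Tendsto.neg ?_
    rw [← Finset.sum_const_zero (s := S.filter fun s => ¬ ‖ν s‖ = 1)]
    refine tendsto_finsetSum _ fun s hs => ?_
    obtain ⟨h1, h2⟩ := Finset.mem_filter.1 hs
    have h3 : ‖ν s‖ < 1 := by
      refine lt_of_le_of_ne ?_ h2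
      rw [hν, norm_div]
      exact div_le_one_of_le₀ (hmax s h1) (norm_nonneg _)
    rw [← mul_zero (c s)]
    exact ((tendsto_pow_atTop_nhds_zero_of_norm_lt_one h3).comp
      (tendsto_pow_atTop_atTop_of_one_lt one_lt_two)).const_mul _
  let Λ : AddSubgroup ℤ :=
    { carrier := {v | ∃ u : ℤ, ‖a ^ u * z ^ v‖ = 1}
      zero_mem' := ⟨0, by simp⟩
      add_mem' := by
        rintro v w ⟨u, hu⟩ ⟨u', hu'⟩
        refine ⟨u + u', ?_⟩
        rw [zpow_add₀ ha0, zpow_add₀ hz, mul_mul_mul_comm, norm_mul, hu, hu', mul_one]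
      neg_mem' := by
        rintro v ⟨u, hu⟩
        refine ⟨-u, ?_⟩
        rw [zpow_neg, zpow_neg, ← mul_inv, norm_inv, hu, inv_one] }
  obtain ⟨v0, hv0⟩ := Int.subgroup_cyclic Λ
  obtain ⟨u0, hu0⟩ : v0 ∈ Λ := hv0 ▸ AddSubgroup.subset_closure rfl
  have hνe : ∀ s, ν s = a ^ ((i s : ℤ) - i s0) * z ^ ((j s : ℤ) - j s0) := fun s => by
    rw [zpow_sub₀ ha0, zpow_sub₀ hz, div_mul_div_comm]
    simp only [zpow_natCast]
    rfl
  have hm : ∀ s ∈ T, ∃ m : ℤ, (i s : ℤ) - i s0 = u0 * m ∧ (j s : ℤ) - j s0 = v0 * m := by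
    intro s hs
    have h1 := (Finset.mem_filter.1 hs).2
    rw [hνe] at h1
    have h2 : (j s : ℤ) - j s0 ∈ AddSubgroup.closure {v0} := hv0 ▸ ⟨_, h1⟩
    obtain ⟨m, hm⟩ := AddSubgroup.mem_closure_singleton.1 h2
    rw [smul_eq_mul, mul_comm] at hm
    refine ⟨m, ?_, hm.symm⟩
    have h3 : ‖a ^ (u0 * m) * z ^ (v0 * m)‖ = 1 := by
      rw [zpow_mul, zpow_mul, ← mul_zpow, norm_zpow, hu0, one_zpow]
    rw [← hm, ← h3, norm_mul, norm_mul, norm_zpow, norm_zpow a] at h1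
    have h4 := mul_right_cancel₀ (norm_ne_zero_iff.2 (zpow_ne_zero _ hz)) h1
    exact zpow_right_injective₀ (zero_lt_one.trans ha) ha.ne' h4
  choose! m hm1 hm2 using hm
  by_cases h0 : u0 = 0 ∧ v0 = 0
  · exfalso
    have hT1 : T = {s0} := by
      refine Finset.eq_singleton_iff_unique_mem.2 ⟨hT0, fun s hs => hinj _ _ ?_ ?_⟩
      · have := hm1 s hs
        rw [h0.1] at this
        omega
      · have := hm2 s hs
        rw [h0.2] at this
        omega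
    simp only [hT1, Finset.sum_singleton, hν0, one_pow, mul_one] at hlim
    exact hc s0 hs0 (tendsto_nhds_unique tendsto_const_nhds hlim)
  set t := a ^ u0 * z ^ v0 with ht
  have ht0 : t ≠ 0 := mul_ne_zero (zpow_ne_zero _ ha0) (zpow_ne_zero _ hz)
  have hνt : ∀ s ∈ T, ν s = t ^ m s := fun s hs => by
    rw [hνe, hm1 s hs, hm2 s hs, zpow_mul, zpow_mul, ← mul_zpow]
  set M : ℕ := ∑ s ∈ T, (m s).natAbs with hM
  have hM0 : ∀ s ∈ T, 0 ≤ m s + M := fun s hs => by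
    have : (m s).natAbs ≤ M := Finset.single_le_sum (f := fun s => (m s).natAbs)
      (fun _ _ => Nat.zero_le _) hs
    omega
  set P : ℂ[X] := ∑ s ∈ T, monomial (m s + M).toNat (c s) with hP
  have hP0 : P ≠ 0 := by
    intro e
    have h1 : P.coeff (m s0 + M).toNat = c s0 := by
      rw [hP, finsetSum_coeff, Finset.sum_eq_single_of_mem s0 hT0, coeff_monomial_same]
      intro s hs hne
      refine coeff_monomial_of_ne _ fun e => hne ?_
      have e1 : m s = m s0 := by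
        have := hM0 s hs
        have := hM0 s0 hT0
        omega
      have e2 := hm1 s hs
      have e3 := hm2 s hs
      rw [e1, ← hm1 s0 hT0] at e2
      rw [e1, ← hm2 s0 hT0] at e3
      exact hinj _ _ (by omega) (by omega)
    rw [e, coeff_zero] at h1
    exact hc s0 hs0 h1.symm
  have hev : ∀ k : ℕ, P.eval (t ^ 2 ^ k) = (t ^ 2 ^ k) ^ M * ∑ s ∈ T, c s * ν s ^ 2 ^ k := by
    intro k
    rw [hP, eval_finsetSum, Finset.mul_sum]
    refine Finset.sum_congr rfl fun s hs => ?_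
    rw [eval_monomial, hνt s hs, ← zpow_natCast (t ^ 2 ^ k), Int.toNat_of_nonneg (hM0 s hs),
      zpow_add₀ (pow_ne_zero _ ht0), zpow_natCast, ← zpow_natCast (t ^ m s), ← zpow_mul,
      ← zpow_natCast t (2 ^ k), ← zpow_mul, mul_comm (m s)]
    ring
  obtain ⟨E, hE0, hE⟩ := root_unity P hP0 t hu0 (by
    refine tendsto_zero_iff_norm_tendsto_zero.2 ?_
    simp only [hev, norm_mul, norm_pow, hu0, one_pow, one_mul]
    exact tendsto_zero_iff_norm_tendsto_zero.1 hlim)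
  refine ⟨u0 * E, v0 * E, ?_, ?_⟩
  · have hE' : (E : ℤ) ≠ 0 := by omega
    rcases not_and_or.1 h0 with e | e
    · exact Or.inl (mul_ne_zero e hE')
    · exact Or.inr (mul_ne_zero e hE')
  · rw [zpow_mul, zpow_mul, ← mul_zpow, zpow_natCast]
    exact hE

theorem sdep : SDep := by
  intro G a z hG ha hz h
  set H := G * G.comp (-X) with hH
  have hH0 : H ≠ 0 := mul_ne_zero hG fun e => hG (comp_neg_X_eq_zero_iff.1 e)
  refine dep_sum (H.support.sigma fun j => (H.coeff j).support)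
    (fun s => (((H.coeff s.1).coeff s.2 : ℤ) : ℂ)) (fun s => s.2) (fun s => s.1) ?_ ?_ ?_ a z ha hz
    fun k => ?_
  · obtain ⟨j, hj⟩ := support_nonempty.2 hH0
    obtain ⟨i, hi⟩ := support_nonempty.2 (mem_support_iff.1 hj)
    exact ⟨⟨j, i⟩, Finset.mem_sigma.2 ⟨hj, hi⟩⟩
  · intro s hs
    exact Int.cast_ne_zero.2 (mem_support_iff.1 (Finset.mem_sigma.1 hs).2)
  · rintro ⟨j, i⟩ ⟨j', i'⟩ e1 e2
    simp only at e1 e2
    rw [e1, e2]
  · have h1 : (H.map (ev (a ^ 2 ^ k))).eval (z ^ 2 ^ k) = 0 := by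
      rw [hH, Polynomial.map_mul, eval_mul, map_comp, eval_comp]
      simpa using h k
    rw [eval_map, eval₂_eq_sum, Polynomial.sum] at h1
    rw [Finset.sum_sigma, ← h1]
    refine Finset.sum_congr rfl fun j _ => ?_
    rw [ev, coe_eval₂RingHom, eval₂_eq_sum, Polynomial.sum, Finset.sum_mul]
    refine Finset.sum_congr rfl fun i _ => ?_
    simp only [eq_intCast]
    rw [mul_pow, ← pow_mul, ← pow_mul, ← pow_mul, ← pow_mul, mul_comm i, mul_comm j, mul_assoc]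

end Pool.Agent.MP_670f9a_nt.H10
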